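import Pool.Agent.N782.GN.StmB

/-! GN/TG, part a: elementary lemmas on the weights. -/

set_option autoImplicit false

namespace Pool.Agent.N391.GN

open Finset Pool.Agent.N782.GN

theorem Phi_nonneg (x : ℝ) : 0 ≤ Phi x := le_max_left _ _

theorem Phi_le_one (x : ℝ) : Phi x ≤ 1 := max_le zero_le_one (min_le_left _ _)

theorem psi_nonneg (D x : ℝ) : 0 ≤ psi D x := le_max_left _ _

theorem psi_le_one (D x : ℝ) : psi D x ≤ 1 := max_le zero_le_one (min_le_left _ _)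

theorem om_nonneg (x : ℝ) : 0 ≤ om x := le_max_left _ _

theorem om_le_one (x : ℝ) : om x ≤ 1 := max_le zero_le_one (min_le_left _ _)

theorem om_eq_zero {x : ℝ} (h : x ≤ 1) : om x = 0 := by
  unfold om
  rw [max_eq_left]
  exact (min_le_right _ _).trans (by linarith)

theorem om_eq_one {x : ℝ} (h : 2 ≤ x) : om x = 1 := by
  unfold om
  rw [min_eq_left (by linarith), max_eq_right zero_le_one]

theorem Phi_zero_of_le {x : ℝ} (h : x ≤ 1 / 2) : Phi x = 0 := by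
  unfold Phi
  rw [max_eq_left]
  exact (min_le_right _ _).trans ((min_le_left _ _).trans (by linarith))

theorem Phi_zero_of_ge {x : ℝ} (h : 3 ≤ x) : Phi x = 0 := by
  unfold Phi
  rw [max_eq_left]
  exact (min_le_right _ _).trans ((min_le_right _ _).trans (by linarith))

theorem Phi_lip (x y : ℝ) : |Phi x - Phi y| ≤ 2 * |x - y| := by
  unfold Phi
  have h0 : 0 ≤ |x - y| := abs_nonneg _
  refine (abs_max_sub_max_le_max _ _ _ _).trans (max_le (by simp) ?_)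
  refine (abs_min_sub_min_le_max _ _ _ _).trans (max_le (by simp) ?_)
  refine (abs_min_sub_min_le_max _ _ _ _).trans (max_le ?_ ?_)
  · rw [show 2 * x - 1 - (2 * y - 1) = 2 * (x - y) by ring, abs_mul, abs_two]
  · rw [show 3 - x - (3 - y) = -(x - y) by ring, abs_neg]
    linarith

theorem psi_lip {D : ℝ} (hD : 0 ≤ D) (x y : ℝ) : |psi D x - psi D y| ≤ D * |x - y| := by
  unfold psi
  have h0 : 0 ≤ |x - y| := abs_nonneg _
  have h1 : 0 ≤ D * |x - y| := by positivity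
  refine (abs_max_sub_max_le_max _ _ _ _).trans (max_le (by simpa using h1) ?_)
  refine (abs_min_sub_min_le_max _ _ _ _).trans (max_le (by simpa using h1) ?_)
  rw [show D * (1 - x) - D * (1 - y) = -(D * (x - y)) by ring, abs_neg, abs_mul, abs_of_nonneg hD]

theorem prod3_lip {a b c a' b' c' : ℝ} (hb : |b| ≤ 1) (hb' : |b'| ≤ 1) (hc : |c| ≤ 1)
    (ha' : |a'| ≤ 1) : |a * b * c - a' * b' * c'| ≤ |a - a'| + |b - b'| + |c - c'| := by
  have e : a * b * c - a' * b' * c' = (a - a') * (b * c) + a' * c * (b - b') + a' * b' * (c - c') := by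
    ring
  rw [e]
  have h1 : |(a - a') * (b * c)| ≤ |a - a'| := by
    rw [abs_mul, abs_mul]
    have := mul_le_one₀ hb (abs_nonneg c) hc
    nlinarith [abs_nonneg (a - a')]
  have h2 : |a' * c * (b - b')| ≤ |b - b'| := by
    rw [abs_mul, abs_mul]
    have := mul_le_one₀ ha' (abs_nonneg c) hc
    nlinarith [abs_nonneg (b - b')]
  have h3 : |a' * b' * (c - c')| ≤ |c - c'| := by
    rw [abs_mul, abs_mul]
    have := mul_le_one₀ ha' (abs_nonneg b') hb'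
    nlinarith [abs_nonneg (c - c')]
  have h4 := abs_add_le ((a - a') * (b * c) + a' * c * (b - b')) (a' * b' * (c - c'))
  have h5 := abs_add_le ((a - a') * (b * c)) (a' * c * (b - b'))
  linarith

theorem abs_le_one_of {x : ℝ} (h0 : 0 ≤ x) (h1 : x ≤ 1) : |x| ≤ 1 := abs_le.2 ⟨by linarith, h1⟩

theorem rh_nonneg (x y : ℝ) (z1 z2 : ℂ) : 0 ≤ rh x y z1 z2 := by
  unfold rh
  positivity

theorem rh_lip (x y x' y' : ℝ) (z1 z2 : ℂ) :
    |rh x y z1 z2 - rh x' y' z1 z2| ≤ (‖z2‖ * |x - x'| + ‖z1‖ * |y - y'|) / |dlc z1 z2| := by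
  unfold rh
  rw [← sub_div, abs_div, abs_abs]
  refine div_le_div_of_nonneg_right ?_ (abs_nonneg _)
  refine (abs_norm_sub_norm_le _ _).trans ?_
  have e : z2 * (x : ℂ) - z1 * (y : ℂ) - (z2 * (x' : ℂ) - z1 * (y' : ℂ)) =
      z2 * ((x - x' : ℝ) : ℂ) - z1 * ((y - y' : ℝ) : ℂ) := by
    push_cast
    ring
  rw [e]
  refine (norm_sub_le _ _).trans ?_
  rw [norm_mul, norm_mul, Complex.norm_real, Complex.norm_real, Real.norm_eq_abs, Real.norm_eq_abs]

theorem rh_le (x y : ℝ) (z1 z2 : ℂ) :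
    rh x y z1 z2 ≤ (‖z2‖ * |x| + ‖z1‖ * |y|) / |dlc z1 z2| := by
  unfold rh
  refine div_le_div_of_nonneg_right ?_ (abs_nonneg _)
  refine (norm_sub_le _ _).trans ?_
  rw [norm_mul, norm_mul, Complex.norm_real, Complex.norm_real, Real.norm_eq_abs, Real.norm_eq_abs]

theorem Hf_nonneg (D M P x y : ℝ) (z1 z2 : ℂ) : 0 ≤ Hf D M P x y z1 z2 := by
  unfold Hf
  have := Phi_nonneg (rh x y z1 z2 / P)
  have := psi_nonneg D (‖z1‖ * rh x y z1 z2 / M)
  have := psi_nonneg D (‖z2‖ * rh x y z1 z2 / M)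
  positivity

theorem Hf_le_one (D M P x y : ℝ) (z1 z2 : ℂ) : Hf D M P x y z1 z2 ≤ 1 := by
  unfold Hf
  exact mul_le_one₀ (mul_le_one₀ (Phi_le_one _) (psi_nonneg _ _) (psi_le_one _ _)) (psi_nonneg _ _)
    (psi_le_one _ _)

/-- the weight changes little -/
theorem Hf_lip {D M P R : ℝ} (hD : 1 ≤ D) (hM : 0 < M) (hP : 0 < P) (hRP : R * P ≤ M) (hR : 0 < R)
    (x y x' y' n : ℝ) (z1 z2 : ℂ) (h1 : ‖z1‖ ≤ 2 * R) (h2 : ‖z2‖ ≤ 2 * R)
    (hx : |x - x'| ≤ n) (hy : |y - y'| ≤ n) :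
    |Hf D M P x y z1 z2 - Hf D M P x' y' z1 z2| ≤ 24 * D * R * n / (P * |dlc z1 z2|) := by
  have hn : 0 ≤ n := (abs_nonneg _).trans hx
  unfold Hf
  set r := rh x y z1 z2
  set r' := rh x' y' z1 z2
  have hr : |r - r'| ≤ 4 * R * n / |dlc z1 z2| := by
    refine (rh_lip x y x' y' z1 z2).trans (div_le_div_of_nonneg_right ?_ (abs_nonneg _))
    have a1 : ‖z2‖ * |x - x'| ≤ 2 * R * n := mul_le_mul h2 hx (abs_nonneg _) (by positivity)
    have a2 : ‖z1‖ * |y - y'| ≤ 2 * R * n := mul_le_mul h1 hy (abs_nonneg _) (by positivity)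
    linarith
  refine (prod3_lip
    (abs_le_one_of (psi_nonneg _ _) (psi_le_one _ _)) (abs_le_one_of (psi_nonneg _ _) (psi_le_one _ _))
    (abs_le_one_of (psi_nonneg _ _) (psi_le_one _ _)) (abs_le_one_of (Phi_nonneg _) (Phi_le_one _))).trans ?_
  have b1 : |Phi (r / P) - Phi (r' / P)| ≤ 2 / P * |r - r'| := by
    refine (Phi_lip _ _).trans (le_of_eq ?_)
    rw [← sub_div, abs_div, abs_of_pos hP]
    ring
  have b2 : ∀ z : ℂ, ‖z‖ ≤ 2 * R → |psi D (‖z‖ * r / M) - psi D (‖z‖ * r' / M)| ≤ 2 * D / P * |r - r'| := by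
    intro z hz
    refine (psi_lip (by linarith) _ _).trans ?_
    rw [show ‖z‖ * r / M - ‖z‖ * r' / M = ‖z‖ / M * (r - r') by ring, abs_mul, ← mul_assoc]
    refine mul_le_mul_of_nonneg_right ?_ (abs_nonneg _)
    rw [abs_of_nonneg (by positivity)]
    have c1 : ‖z‖ / M ≤ 2 / P := by
      rw [div_le_div_iff₀ hM hP]
      nlinarith
    calc D * (‖z‖ / M) ≤ D * (2 / P) := mul_le_mul_of_nonneg_left c1 (by linarith)
      _ = 2 * D / P := by ring
  have b3 := b2 z1 h1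
  have b4 := b2 z2 h2
  have b5 : 2 / P * |r - r'| ≤ 2 * D / P * |r - r'| := by
    refine mul_le_mul_of_nonneg_right ?_ (abs_nonneg _)
    refine div_le_div_of_nonneg_right (by linarith) hP.le
  have b6 : 2 * D / P * |r - r'| ≤ 2 * D / P * (4 * R * n / |dlc z1 z2|) :=
    mul_le_mul_of_nonneg_left hr (by positivity)
  have b7 : 24 * D * R * n / (P * |dlc z1 z2|) = 3 * (2 * D / P * (4 * R * n / |dlc z1 z2|)) := by
    rw [div_mul_div_comm]
    ring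
  rw [b7]
  linarith

/-- the support of the weight -/
theorem Hf_supp {D M P R L : ℝ} (hP : 0 < P) (hR : 0 < R)
    (x y : ℝ) (z1 z2 : ℂ) (h1 : ‖z1‖ ≤ 2 * R) (h2 : ‖z2‖ ≤ 2 * R)
    (hx0 : 0 ≤ x) (hx : x ≤ L) (hy0 : 0 ≤ y) (hy : y ≤ L) (hd : 8 * (R * L / P) < |dlc z1 z2|) :
    Hf D M P x y z1 z2 = 0 := by
  have hL : 0 ≤ L := hx0.trans hx
  have hd0 : 0 < |dlc z1 z2| := lt_of_le_of_lt (by positivity) hd
  have hr : rh x y z1 z2 / P ≤ 1 / 2 := by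
    rw [div_le_iff₀ hP]
    refine (rh_le x y z1 z2).trans ?_
    rw [div_le_iff₀ hd0, abs_of_nonneg hx0, abs_of_nonneg hy0]
    have a1 : ‖z2‖ * x ≤ 2 * R * L := mul_le_mul h2 hx hx0 (by positivity)
    have a2 : ‖z1‖ * y ≤ 2 * R * L := mul_le_mul h1 hy hy0 (by positivity)
    have a3 : 8 * (R * L / P) * P = 8 * (R * L) := by field_simp
    nlinarith
  unfold Hf
  rw [Phi_zero_of_le hr]
  ring

/-! Gaussian integers as complex numbers -/

theorem norm_sq_coe (w : ZI) : ‖(w : ℂ)‖ ^ 2 = nz w := by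
  rw [Complex.sq_norm, ← GaussianInt.intCast_real_norm]
  rfl

theorem norm_coe (w : ZI) : ‖(w : ℂ)‖ = Real.sqrt (nz w) := by
  rw [← norm_sq_coe, Real.sqrt_sq (norm_nonneg _)]

theorem nz_mul (a b : ZI) : nz (a * b) = nz a * nz b := by
  unfold nz
  rw [Zsqrtd.norm_mul]
  push_cast
  ring

theorem sqrt_nz_mul (a b : ZI) : Real.sqrt (nz (a * b)) = ‖(a : ℂ)‖ * Real.sqrt (nz b) := by
  rw [nz_mul, Real.sqrt_mul (nz_nonneg a), norm_coe]

theorem dlc_coe (w1 w2 : ZI) : dlc (w1 : ℂ) (w2 : ℂ) = (dl w1 w2 : ℝ) := by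
  unfold dlc dl
  rw [Complex.mul_im, Complex.conj_re, Complex.conj_im, ← GaussianInt.intCast_re,
    ← GaussianInt.intCast_im, ← GaussianInt.intCast_re, ← GaussianInt.intCast_im]
  push_cast
  ring

theorem mem_cw {R : ℝ} {w : ZI} (h : w ∈ cw R) : w ≠ 0 ∧ nz w ≤ 4 * R ^ 2 ∧ R ^ 2 < nz w ∧ ct w = 1 := by
  unfold cw at h
  rw [mem_filter, mem_bl] at h
  exact ⟨h.1.1, h.1.2, h.2.1, h.2.2⟩

theorem mem_cw_iff {R : ℝ} {w : ZI} :
    w ∈ cw R ↔ w ≠ 0 ∧ nz w ≤ 4 * R ^ 2 ∧ R ^ 2 < nz w ∧ ct w = 1 := by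
  unfold cw
  rw [mem_filter, mem_bl]
  tauto

theorem cw_lower {R : ℝ} {w : ZI} (h : w ∈ cw R) : R ≤ ‖(w : ℂ)‖ := by
  obtain ⟨-, -, h3, -⟩ := mem_cw h
  rw [← norm_sq_coe] at h3
  exact le_of_lt (lt_of_pow_lt_pow_left₀ 2 (norm_nonneg _) h3)

theorem cw_upper {R : ℝ} (hR : 0 < R) {w : ZI} (h : w ∈ cw R) : ‖(w : ℂ)‖ ≤ 2 * R := by
  obtain ⟨-, h2, -, -⟩ := mem_cw h
  rw [← norm_sq_coe] at h2
  refine le_of_sq_le_sq ?_ (by positivity)
  linarith [show (2 * R) ^ 2 = 4 * R ^ 2 by ring]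

end Pool.Agent.N391.GN
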