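import Pool.Agent.N391.GN.TGa

/-! GN/TG, part b: expansion of the square, counting of pairs. -/

set_option autoImplicit false

namespace Pool.Agent.N391.GN

open Finset Pool.Agent.N782.GN

/-- one pair: the inner sum of the dispersion -/
noncomputable def FF (D M P : ℝ) (lam : ℤ → ℝ) (w1 w2 : ZI) : ℝ :=
  ∑ v ∈ bl (9 * P ^ 2), Phi (Real.sqrt (nz v) / P) *
    (lam (w1 * v).re * psi D (Real.sqrt (nz (w1 * v)) / M)) *
    (lam (w2 * v).re * psi D (Real.sqrt (nz (w2 * v)) / M))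

theorem expand (D M P R : ℝ) (β : ZI → ℝ) (lam : ℤ → ℝ) (hβ : ∀ w, ct w ≠ 1 → β w = 0) :
    ∑ v ∈ bl (9 * P ^ 2), Phi (Real.sqrt (nz v) / P) *
      (∑ w ∈ (bl (4 * R ^ 2)).filter (fun w => R ^ 2 < nz w),
        β w * lam (w * v).re * psi D (Real.sqrt (nz (w * v)) / M)) ^ 2 =
    ∑ w1 ∈ cw R, ∑ w2 ∈ cw R, β w1 * β w2 * FF D M P lam w1 w2 := by
  have h1 : ∀ v : ZI, ∑ w ∈ (bl (4 * R ^ 2)).filter (fun w => R ^ 2 < nz w),
        β w * lam (w * v).re * psi D (Real.sqrt (nz (w * v)) / M) =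
      ∑ w ∈ cw R, β w * lam (w * v).re * psi D (Real.sqrt (nz (w * v)) / M) := by
    intro v
    symm
    refine Finset.sum_subset ?_ ?_
    · intro w hw
      obtain ⟨a, b, c, -⟩ := mem_cw hw
      rw [mem_filter, mem_bl]
      exact ⟨⟨a, b⟩, c⟩
    · intro w hw hw2
      rw [mem_filter, mem_bl] at hw
      have : ct w ≠ 1 := fun h => hw2 (mem_cw_iff.2 ⟨hw.1.1, hw.1.2, hw.2, h⟩)
      rw [hβ w this]
      ring
  have h2 : ∀ v : ZI, Phi (Real.sqrt (nz v) / P) *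
      (∑ w ∈ cw R, β w * lam (w * v).re * psi D (Real.sqrt (nz (w * v)) / M)) ^ 2 =
      ∑ w1 ∈ cw R, ∑ w2 ∈ cw R, β w1 * β w2 * (Phi (Real.sqrt (nz v) / P) *
        (lam (w1 * v).re * psi D (Real.sqrt (nz (w1 * v)) / M)) *
        (lam (w2 * v).re * psi D (Real.sqrt (nz (w2 * v)) / M))) := by
    intro v
    rw [sq, Finset.sum_mul_sum, Finset.mul_sum]
    refine Finset.sum_congr rfl fun w1 _ => ?_
    rw [Finset.mul_sum]
    refine Finset.sum_congr rfl fun w2 _ => ?_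
    ring
  simp only [h1, h2]
  rw [Finset.sum_comm]
  refine Finset.sum_congr rfl fun w1 _ => ?_
  rw [Finset.sum_comm]
  refine Finset.sum_congr rfl fun w2 _ => ?_
  unfold FF
  rw [Finset.mul_sum]

theorem FF_bound {D M P L R C : ℝ} {lam : ℤ → ℝ} (hlam : Lm L lam) (w1 w2 : ZI)
    (h : (((bl (9 * P ^ 2)).filter (fun v => 1 ≤ (w1 * v).re ∧ (((w1 * v).re : ℤ) : ℝ) ≤ L)).card : ℝ) ≤
      C * L * P / R) : |FF D M P lam w1 w2| ≤ C * L * P / R := by
  refine le_trans ?_ h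
  unfold FF
  refine (Finset.abs_sum_le_sum_abs _ _).trans ?_
  rw [Finset.card_filter]
  push_cast
  refine Finset.sum_le_sum fun v _ => ?_
  have a1 := abs_le_one_of (Phi_nonneg (Real.sqrt (nz v) / P)) (Phi_le_one _)
  have a2 := abs_le_one_of (psi_nonneg D (Real.sqrt (nz (w1 * v)) / M)) (psi_le_one _ _)
  have a3 := abs_le_one_of (psi_nonneg D (Real.sqrt (nz (w2 * v)) / M)) (psi_le_one _ _)
  have a4 := hlam.1 (w1 * v).re
  have a5 := hlam.1 (w2 * v).re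
  by_cases hv : 1 ≤ (w1 * v).re ∧ (((w1 * v).re : ℤ) : ℝ) ≤ L
  · rw [if_pos hv, abs_mul, abs_mul, abs_mul, abs_mul]
    refine mul_le_one₀ (mul_le_one₀ a1 (by positivity) (mul_le_one₀ a4 (abs_nonneg _) a2))
      (by positivity) (mul_le_one₀ a5 (abs_nonneg _) a3)
  · rw [if_neg hv]
    have : lam (w1 * v).re = 0 := by
      apply hlam.2
      by_contra hcon
      push Not at hcon
      exact hv hcon
    rw [this]
    simp

theorem pair_count {C R : ℝ} (hC : 0 ≤ C) (hc : ((cw R).card : ℝ) ≤ C * R ^ 2)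
    (h2 : ∀ w ∈ cw R, ∀ D : ℤ, (((cw R).filter (fun w2 => dl w w2 = D)).card : ℝ) ≤ C)
    (S : Finset ℤ) (g : ℤ → ℝ) (hg : ∀ d ∈ S, 0 ≤ g d) :
    ∑ w1 ∈ cw R, ∑ w2 ∈ (cw R).filter (fun w2 => dl w1 w2 ∈ S), g (dl w1 w2) ≤
      C ^ 2 * R ^ 2 * ∑ d ∈ S, g d := by
  have hS : 0 ≤ ∑ d ∈ S, g d := Finset.sum_nonneg hg
  have h3 : ∀ w1 ∈ cw R, ∑ w2 ∈ (cw R).filter (fun w2 => dl w1 w2 ∈ S), g (dl w1 w2) ≤
      C * ∑ d ∈ S, g d := by
    intro w1 hw1
    rw [← Finset.sum_fiberwise_of_maps_to (t := S) (g := fun w2 => dl w1 w2)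
      (fun w2 hw2 => (mem_filter.1 hw2).2), Finset.mul_sum]
    refine Finset.sum_le_sum fun d hd => ?_
    have h4 : ∑ w2 ∈ ((cw R).filter (fun w2 => dl w1 w2 ∈ S)).filter (fun w2 => dl w1 w2 = d), g (dl w1 w2) =
        ∑ w2 ∈ ((cw R).filter (fun w2 => dl w1 w2 ∈ S)).filter (fun w2 => dl w1 w2 = d), g d := by
      refine Finset.sum_congr rfl fun w2 hw2 => ?_
      rw [(mem_filter.1 hw2).2]
    rw [h4, Finset.sum_const, nsmul_eq_mul]
    refine mul_le_mul_of_nonneg_right (le_trans ?_ (h2 w1 hw1 d)) (hg d hd)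
    norm_cast
    refine Finset.card_le_card fun w2 hw2 => ?_
    rw [mem_filter, mem_filter] at hw2
    exact mem_filter.2 ⟨hw2.1.1, hw2.2⟩
  refine (Finset.sum_le_sum h3).trans ?_
  rw [Finset.sum_const, nsmul_eq_mul]
  have : ((cw R).card : ℝ) * (C * ∑ d ∈ S, g d) ≤ C * R ^ 2 * (C * ∑ d ∈ S, g d) :=
    mul_le_mul_of_nonneg_right hc (by positivity)
  linarith [show C * R ^ 2 * (C * ∑ d ∈ S, g d) = C ^ 2 * R ^ 2 * ∑ d ∈ S, g d by ring]

/-- the pairs with a small determinant -/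
theorem part1 {C R D M P L D1 : ℝ} {lam : ℤ → ℝ} {β : ZI → ℝ} (hC : 0 ≤ C) (hD1 : 0 < D1)
    (hR : 0 < R) (hP : 0 < P) (hL : 0 ≤ L)
    (hc : ((cw R).card : ℝ) ≤ C * R ^ 2)
    (h2 : ∀ w ∈ cw R, ∀ D : ℤ, (((cw R).filter (fun w2 => dl w w2 = D)).card : ℝ) ≤ C)
    (h3 : ∀ w ∈ cw R, (((bl (9 * P ^ 2)).filter
      (fun v => 1 ≤ (w * v).re ∧ (((w * v).re : ℤ) : ℝ) ≤ L)).card : ℝ) ≤ C * L * P / R)
    (hβ : ∀ w, |β w| ≤ 1) (hlam : Lm L lam) :
    |∑ w1 ∈ cw R, ∑ w2 ∈ cw R, β w1 * β w2 * ((1 - om (|(dl w1 w2 : ℝ)| / D1)) * FF D M P lam w1 w2)| ≤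
      C ^ 3 * (4 * D1 + 1) * R * L * P := by
  set m : ℤ := ⌊2 * D1⌋ with hm
  have hm0 : 0 ≤ m := Int.floor_nonneg.2 (by positivity)
  set S : Finset ℤ := Icc (-m) m with hS
  have hcard : (S.card : ℝ) ≤ 4 * D1 + 1 := by
    rw [hS, Int.card_Icc]
    have h5 : (((m + 1 - -m).toNat : ℤ) : ℝ) = 2 * m + 1 := by
      rw [Int.toNat_of_nonneg (by omega)]
      push_cast
      ring
    have h6 : ((m + 1 - -m).toNat : ℝ) = 2 * m + 1 := by
      rw [← h5]
      push_cast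
      rfl
    rw [h6]
    have := Int.floor_le (2 * D1)
    rw [← hm] at this
    linarith
  have key : ∀ w1 ∈ cw R, ∀ w2 ∈ cw R,
      |β w1 * β w2 * ((1 - om (|(dl w1 w2 : ℝ)| / D1)) * FF D M P lam w1 w2)| ≤
        if dl w1 w2 ∈ S then C * L * P / R else 0 := by
    intro w1 hw1 w2 _
    have hF := FF_bound (D := D) (M := M) (P := P) (L := L) (R := R) (C := C) hlam w1 w2 (h3 w1 hw1)
    have hF0 : 0 ≤ C * L * P / R := (abs_nonneg _).trans hF
    by_cases hin : dl w1 w2 ∈ S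
    · rw [if_pos hin, abs_mul, abs_mul, abs_mul]
      have a1 := om_nonneg (|(dl w1 w2 : ℝ)| / D1)
      have a2 := om_le_one (|(dl w1 w2 : ℝ)| / D1)
      have a3 : |1 - om (|(dl w1 w2 : ℝ)| / D1)| ≤ 1 := abs_le_one_of (by linarith) (by linarith)
      have a4 : |β w1| * |β w2| ≤ 1 := mul_le_one₀ (hβ _) (abs_nonneg _) (hβ _)
      have a5 : |1 - om (|(dl w1 w2 : ℝ)| / D1)| * |FF D M P lam w1 w2| ≤ 1 * (C * L * P / R) :=
        mul_le_mul a3 hF (abs_nonneg _) zero_le_one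
      calc |β w1| * |β w2| * (|1 - om (|(dl w1 w2 : ℝ)| / D1)| * |FF D M P lam w1 w2|)
          ≤ 1 * (1 * (C * L * P / R)) := mul_le_mul a4 a5 (by positivity) zero_le_one
        _ = C * L * P / R := by ring
    · rw [if_neg hin]
      have h7 : 2 * D1 < |(dl w1 w2 : ℝ)| := by
        rw [hS, mem_Icc, not_and_or] at hin
        push Not at hin
        have h8 : (m : ℝ) + 1 ≤ |(dl w1 w2 : ℝ)| := by
          rcases hin with h | h
          · have : dl w1 w2 ≤ -(m + 1) := by omega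
            have h9 : (dl w1 w2 : ℝ) ≤ -((m : ℝ) + 1) := by exact_mod_cast this
            rw [le_abs]
            right
            linarith
          · have : m + 1 ≤ dl w1 w2 := by omega
            have h9 : (m : ℝ) + 1 ≤ (dl w1 w2 : ℝ) := by exact_mod_cast this
            exact h9.trans (le_abs_self _)
        have := Int.lt_floor_add_one (2 * D1)
        rw [← hm] at this
        linarith
      rw [om_eq_one (by rw [le_div_iff₀ hD1]; linarith)]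
      simp
  refine (Finset.abs_sum_le_sum_abs _ _).trans ?_
  have h10 : ∀ w1 ∈ cw R, |∑ w2 ∈ cw R, β w1 * β w2 *
      ((1 - om (|(dl w1 w2 : ℝ)| / D1)) * FF D M P lam w1 w2)| ≤
      ∑ w2 ∈ (cw R).filter (fun w2 => dl w1 w2 ∈ S), C * L * P / R := by
    intro w1 hw1
    refine (Finset.abs_sum_le_sum_abs _ _).trans ?_
    rw [Finset.sum_filter]
    exact Finset.sum_le_sum fun w2 hw2 => key w1 hw1 w2 hw2
  refine (Finset.sum_le_sum h10).trans ?_
  refine (pair_count hC hc h2 S (fun _ => C * L * P / R) (fun _ _ => by positivity)).trans ?_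
  rw [Finset.sum_const, nsmul_eq_mul]
  have h11 : (S.card : ℝ) * (C * L * P / R) ≤ (4 * D1 + 1) * (C * L * P / R) :=
    mul_le_mul_of_nonneg_right hcard (by positivity)
  have h12 : C ^ 2 * R ^ 2 * ((S.card : ℝ) * (C * L * P / R)) ≤
      C ^ 2 * R ^ 2 * ((4 * D1 + 1) * (C * L * P / R)) := mul_le_mul_of_nonneg_left h11 (by positivity)
  refine h12.trans (le_of_eq ?_)
  field_simp

end Pool.Agent.N391.GN
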