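import Pool.Agent.N391.GN.TGb

/-! GN/TG, part c: the lattice sum, splitting into short intervals. -/

set_option autoImplicit false

namespace Pool.Agent.N391.GN

open Finset Pool.Agent.N782.GN

open Classical in
theorem FF_eq {D M P L : ℝ} {lam : ℤ → ℝ} (hP : 0 < P) (hlam : Lm L lam) (w1 w2 : ZI)
    (hd : dl w1 w2 ≠ 0)
    (hv : ∀ v : ZI, nz v * (dl w1 w2 : ℝ) ^ 2 =
      ‖(w2 : ℂ) * (((w1 * v).re : ℤ) : ℂ) - (w1 : ℂ) * (((w2 * v).re : ℤ) : ℂ)‖ ^ 2)
    (N : ℤ) (hN : L ≤ N) :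
    FF D M P lam w1 w2 = ∑ l1 ∈ Ioc 0 N, ∑ l2 ∈ Ioc 0 N,
      if ∃ v : ZI, (w1 * v).re = l1 ∧ (w2 * v).re = l2 then
        lam l1 * lam l2 * Hf D M P l1 l2 w1 w2 else 0 := by
  have hd' : (0 : ℝ) < |(dl w1 w2 : ℝ)| := abs_pos.2 (by exact_mod_cast hd)
  have hrh : ∀ v : ZI, rh ((w1 * v).re : ℝ) ((w2 * v).re : ℝ) w1 w2 = Real.sqrt (nz v) := by
    intro v
    unfold rh
    rw [dlc_coe, Complex.ofReal_intCast, Complex.ofReal_intCast, div_eq_iff hd'.ne']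
    have h1 := hv v
    have h2 : ‖(w2 : ℂ) * (((w1 * v).re : ℤ) : ℂ) - (w1 : ℂ) * (((w2 * v).re : ℤ) : ℂ)‖ =
        Real.sqrt (nz v * (dl w1 w2 : ℝ) ^ 2) := by
      rw [h1, Real.sqrt_sq (norm_nonneg _)]
    rw [h2, Real.sqrt_mul (nz_nonneg v), Real.sqrt_sq_eq_abs]
  have hinj : ∀ v v' : ZI, (w1 * v).re = (w1 * v').re → (w2 * v).re = (w2 * v').re → v = v' := by
    intro v v' h1 h2
    have h3 := hv (v - v')
    rw [mul_sub, mul_sub, Zsqrtd.re_sub, Zsqrtd.re_sub, h1, h2, sub_self, sub_self] at h3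
    simp only [Int.cast_zero, mul_zero, sub_self, norm_zero, ne_eq, OfNat.ofNat_ne_zero,
      not_false_eq_true, zero_pow, mul_eq_zero, pow_eq_zero_iff, Int.cast_eq_zero, hd, or_false] at h3
    have h4 : Zsqrtd.norm (v - v') = 0 := by
      unfold nz at h3
      exact_mod_cast h3
    exact sub_eq_zero.1 (GaussianInt.norm_eq_zero.1 h4)
  unfold FF
  rw [← Finset.sum_product']
  have hval : ∀ v : ZI, Phi (Real.sqrt (nz v) / P) *
      (lam (w1 * v).re * psi D (Real.sqrt (nz (w1 * v)) / M)) *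
      (lam (w2 * v).re * psi D (Real.sqrt (nz (w2 * v)) / M)) =
      lam (w1 * v).re * lam (w2 * v).re * Hf D M P (w1 * v).re (w2 * v).re w1 w2 := by
    intro v
    unfold Hf
    rw [hrh v, sqrt_nz_mul, sqrt_nz_mul]
    ring
  refine Finset.sum_bij_ne_zero (fun v _ _ => ((w1 * v).re, (w2 * v).re)) ?_ ?_ ?_ ?_
  · intro v _ hne
    rw [hval v] at hne
    have key : ∀ l : ℤ, lam l ≠ 0 → l ∈ Ioc 0 N := by
      intro l hl
      rw [mem_Ioc]
      have := mt (hlam.2 l) hl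
      push Not at this
      refine ⟨by omega, ?_⟩
      have h5 : (l : ℝ) ≤ N := this.2.trans hN
      exact_mod_cast h5
    rw [mem_product]
    exact ⟨key _ (fun h => hne (by rw [h]; ring)), key _ (fun h => hne (by rw [h]; ring))⟩
  · intro v _ _ v' _ _ heq
    exact hinj v v' (congrArg Prod.fst heq) (congrArg Prod.snd heq)
  · rintro ⟨l1, l2⟩ hmem hne
    simp only at hne
    by_cases hex : ∃ v : ZI, (w1 * v).re = l1 ∧ (w2 * v).re = l2
    · rw [if_pos hex] at hne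
      obtain ⟨v, rfl, rfl⟩ := hex
      have hPhi : Phi (Real.sqrt (nz v) / P) ≠ 0 := by
        intro h0
        apply hne
        unfold Hf
        rw [hrh v, h0]
        ring
      have h6 : Real.sqrt (nz v) / P < 3 := by
        by_contra hcon
        exact hPhi (Phi_zero_of_ge (not_lt.1 hcon))
      have h7 : 1 / 2 < Real.sqrt (nz v) / P := by
        by_contra hcon
        exact hPhi (Phi_zero_of_le (not_lt.1 hcon))
      rw [div_lt_iff₀ hP] at h6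
      have h8 : nz v ≤ 9 * P ^ 2 := by
        have h9 := Real.sq_sqrt (nz_nonneg v)
        have h10 := Real.sqrt_nonneg (nz v)
        nlinarith
      have h11 : v ≠ 0 := by
        rintro rfl
        have : nz (0 : ZI) = 0 := by simp [nz]
        rw [this, Real.sqrt_zero, zero_div] at h7
        norm_num at h7
      refine ⟨v, (mem_bl _ _).2 ⟨h11, h8⟩, ?_, rfl⟩
      rw [hval v]
      exact hne
    · rw [if_neg hex] at hne
      exact absurd rfl hne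
  · intro v _ _
    rw [hval v]
    simp only
    rw [if_pos ⟨v, rfl, rfl⟩]

theorem sum_Ioc_split (J n : ℕ) (f : ℤ → ℝ) :
    ∑ l ∈ Ioc (0 : ℤ) ((J * n : ℕ) : ℤ), f l =
      ∑ i ∈ range J, ∑ l ∈ Ioc ((i * n : ℕ) : ℤ) ((i * n : ℕ) + n), f l := by
  induction J with
  | zero => simp
  | succ J ih =>
    rw [Finset.sum_range_succ, ← ih]
    have h1 : ((J * n : ℕ) : ℤ) ≤ (((J + 1) * n : ℕ) : ℤ) := by
      push_cast
      nlinarith [Nat.zero_le n]
    have h2 : (((J * n : ℕ) : ℤ) + n) = (((J + 1) * n : ℕ) : ℤ) := by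
      push_cast
      ring
    rw [h2, ← Finset.Ioc_union_Ioc_eq_Ioc (by positivity) h1, Finset.sum_union]
    rw [Finset.disjoint_left]
    intro x hx hy
    rw [mem_Ioc] at hx hy
    omega

theorem count_mod (Δ a : ℤ) (hΔ : Δ ≠ 0) (N : ℕ) :
    ((((Ioc (0 : ℤ) N).filter (fun l => Δ ∣ l - a)).card : ℕ) : ℝ) ≤ N / |(Δ : ℝ)| + 1 := by
  have hr : 0 < |Δ| := abs_pos.2 hΔ
  have h1 : (Ioc (0 : ℤ) N).filter (fun l => Δ ∣ l - a) =
      (Ioc (0 : ℤ) N).filter (fun l => l ≡ a [ZMOD |Δ|]) := by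
    ext l
    rw [mem_filter, mem_filter, Int.modEq_comm, Int.modEq_iff_dvd, abs_dvd]
  have h2 := Int.Ioc_filter_modEq_card 0 (N : ℤ) hr a
  rw [h1]
  have h3 : ((((Ioc (0 : ℤ) N).filter (fun l => l ≡ a [ZMOD |Δ|])).card : ℤ) : ℚ) ≤ N / (|Δ| : ℤ) + 1 := by
    rw [h2]
    have hq : (0 : ℚ) < ((|Δ| : ℤ) : ℚ) := by exact_mod_cast hr
    rw [Int.cast_max]
    refine max_le ?_ (by push_cast; positivity)
    have e1 := Int.floor_le (((N : ℤ) - a : ℚ) / ((|Δ| : ℤ) : ℚ))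
    have e2 := Int.sub_one_lt_floor ((((0 : ℤ) : ℚ) - a) / ((|Δ| : ℤ) : ℚ))
    push_cast at e1 e2 ⊢
    have e3 : ((N : ℚ) - a) / |(Δ : ℚ)| - (0 - a) / |(Δ : ℚ)| = N / |(Δ : ℚ)| := by
      rw [← sub_div]
      congr 1
      ring
    linarith
  have h4 : ((((((Ioc (0 : ℤ) N).filter (fun l => l ≡ a [ZMOD |Δ|])).card : ℤ) : ℚ)) : ℝ) ≤
      ((N / (|Δ| : ℤ) + 1 : ℚ) : ℝ) := by exact_mod_cast h3
  push_cast at h4
  exact h4

end Pool.Agent.N391.GN
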