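import Pool.Agent.N391.GN.TGc

/-! GN/TG, part d: replacing the weight by its values at the ends of the short intervals. -/

set_option autoImplicit false

namespace Pool.Agent.N391.GN

open Finset Pool.Agent.N782.GN

/-- the left ends of the short intervals -/
noncomputable def xe (L : ℝ) (n i : ℕ) : ℝ := min ((i * n : ℕ) : ℝ) L

theorem xe_nonneg {L : ℝ} (hL : 0 ≤ L) (n i : ℕ) : 0 ≤ xe L n i := le_min (Nat.cast_nonneg _) hL

theorem xe_le (L : ℝ) (n i : ℕ) : xe L n i ≤ L := min_le_right _ _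

theorem xe_near {L : ℝ} (n i : ℕ) (l : ℤ) (hl : l ∈ Ioc ((i * n : ℕ) : ℤ) ((i * n : ℕ) + n))
    (hL : (l : ℝ) ≤ L) : |(l : ℝ) - xe L n i| ≤ n := by
  rw [mem_Ioc] at hl
  have h1 : ((i * n : ℕ) : ℝ) < l := by exact_mod_cast hl.1
  have h2 : (l : ℝ) ≤ ((i * n : ℕ) : ℝ) + n := by exact_mod_cast hl.2
  have h3 : xe L n i = ((i * n : ℕ) : ℝ) := min_eq_left (by linarith)
  rw [h3, abs_le]
  constructor <;> linarith

/-- the main part -/
noncomputable def MPt (D M P L : ℝ) (lam : ℤ → ℝ) (J n : ℕ) (w1 w2 : ZI) : ℝ :=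
  ∑ i ∈ range J, ∑ j ∈ range J, Hf D M P (xe L n i) (xe L n j) w1 w2 *
    A2 lam (Ioc ((i * n : ℕ) : ℤ) ((i * n : ℕ) + n)) (Ioc ((j * n : ℕ) : ℤ) ((j * n : ℕ) + n)) w1 w2

open Classical in
theorem FF_diff {D M P L R : ℝ} {lam : ℤ → ℝ} (hD : 1 ≤ D) (hM : 0 < M) (hP : 0 < P)
    (hRP : R * P ≤ M) (hR : 0 < R) (hL : 0 ≤ L) (hlam : Lm L lam) {w1 w2 : ZI}
    (hw1 : w1 ∈ cw R) (hw2 : w2 ∈ cw R)
    (hd : dl w1 w2 ≠ 0) (t : ℤ)
    (hlat : ∀ l1 l2 : ℤ, (∃ v : ZI, (w1 * v).re = l1 ∧ (w2 * v).re = l2) ↔ dl w1 w2 ∣ l2 - t * l1)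
    (hv : ∀ v : ZI, nz v * (dl w1 w2 : ℝ) ^ 2 =
      ‖(w2 : ℂ) * (((w1 * v).re : ℤ) : ℂ) - (w1 : ℂ) * (((w2 * v).re : ℤ) : ℂ)‖ ^ 2)
    (J n : ℕ) (hJn : L ≤ ((J * n : ℕ) : ℝ)) :
    |FF D M P lam w1 w2 - MPt D M P L lam J n w1 w2| ≤
      if |(dl w1 w2 : ℝ)| ≤ 8 * (R * L / P) then
        24 * D * R * n / (P * |(dl w1 w2 : ℝ)|) * (L * (L / |(dl w1 w2 : ℝ)| + 1)) else 0 := by
  have hd' : (0 : ℝ) < |(dl w1 w2 : ℝ)| := abs_pos.2 (by exact_mod_cast hd)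
  have hn1 : ‖(w1 : ℂ)‖ ≤ 2 * R := cw_upper hR hw1
  have hn2 : ‖(w2 : ℂ)‖ ≤ 2 * R := cw_upper hR hw2
  have hJn' : L ≤ (((J * n : ℕ) : ℤ) : ℝ) := by
    rw [Int.cast_natCast]
    exact hJn
  have e1 : FF D M P lam w1 w2 = ∑ i ∈ range J, ∑ l1 ∈ Ioc ((i * n : ℕ) : ℤ) ((i * n : ℕ) + n),
      ∑ j ∈ range J, ∑ l2 ∈ Ioc ((j * n : ℕ) : ℤ) ((j * n : ℕ) + n),
      if ∃ v : ZI, (w1 * v).re = l1 ∧ (w2 * v).re = l2 then
        lam l1 * lam l2 * Hf D M P l1 l2 w1 w2 else 0 := by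
    rw [FF_eq hP hlam w1 w2 hd hv ((J * n : ℕ) : ℤ) hJn', sum_Ioc_split]
    refine Finset.sum_congr rfl fun i _ => Finset.sum_congr rfl fun l1 _ => ?_
    rw [sum_Ioc_split]
  have e2 : MPt D M P L lam J n w1 w2 =
      ∑ i ∈ range J, ∑ l1 ∈ Ioc ((i * n : ℕ) : ℤ) ((i * n : ℕ) + n),
      ∑ j ∈ range J, ∑ l2 ∈ Ioc ((j * n : ℕ) : ℤ) ((j * n : ℕ) + n),
      if ∃ v : ZI, (w1 * v).re = l1 ∧ (w2 * v).re = l2 then
        lam l1 * lam l2 * Hf D M P (xe L n i) (xe L n j) w1 w2 else 0 := by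
    unfold MPt A2
    refine Finset.sum_congr rfl fun i _ => ?_
    rw [Finset.sum_comm]
    refine Finset.sum_congr rfl fun j _ => ?_
    rw [Finset.mul_sum]
    refine Finset.sum_congr rfl fun l1 _ => ?_
    rw [Finset.mul_sum]
    refine Finset.sum_congr rfl fun l2 _ => ?_
    split_ifs
    · ring
    · ring
  set κ : ℝ := if |(dl w1 w2 : ℝ)| ≤ 8 * (R * L / P) then 24 * D * R * n / (P * |(dl w1 w2 : ℝ)|) else 0
    with hκ
  have hκ0 : 0 ≤ κ := by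
    rw [hκ]
    split_ifs
    · positivity
    · exact le_rfl
  set NL : ℕ := ⌊L⌋₊ with hNL
  have hU : ∀ i ∈ range J, ∀ l1 ∈ Ioc ((i * n : ℕ) : ℤ) ((i * n : ℕ) + n), ∀ j ∈ range J,
      ∀ l2 ∈ Ioc ((j * n : ℕ) : ℤ) ((j * n : ℕ) + n),
      |(if ∃ v : ZI, (w1 * v).re = l1 ∧ (w2 * v).re = l2 then
        lam l1 * lam l2 * Hf D M P l1 l2 w1 w2 else 0) -
       (if ∃ v : ZI, (w1 * v).re = l1 ∧ (w2 * v).re = l2 then
        lam l1 * lam l2 * Hf D M P (xe L n i) (xe L n j) w1 w2 else 0)| ≤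
      if (dl w1 w2 ∣ l2 - t * l1) ∧ l1 ≤ NL ∧ l2 ≤ NL then κ else 0 := by
    intro i _ l1 hl1 j _ l2 hl2
    by_cases hex : ∃ v : ZI, (w1 * v).re = l1 ∧ (w2 * v).re = l2
    · rw [if_pos hex, if_pos hex, ← mul_sub, abs_mul, abs_mul]
      have hdvd := (hlat l1 l2).1 hex
      by_cases h1 : lam l1 = 0
      · rw [h1]
        simp only [abs_zero, zero_mul]
        split_ifs
        · exact hκ0
        · exact le_rfl
      by_cases h2 : lam l2 = 0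
      · rw [h2]
        simp only [abs_zero, mul_zero, zero_mul]
        split_ifs
        · exact hκ0
        · exact le_rfl
      have g1 := mt (hlam.2 l1) h1
      have g2 := mt (hlam.2 l2) h2
      push Not at g1 g2
      have k1 : l1 ≤ (NL : ℤ) := by
        rw [hNL, Int.natCast_floor_eq_floor hL]
        exact Int.le_floor.2 g1.2
      have k2 : l2 ≤ (NL : ℤ) := by
        rw [hNL, Int.natCast_floor_eq_floor hL]
        exact Int.le_floor.2 g2.2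
      rw [if_pos ⟨hdvd, k1, k2⟩]
      have a1 := hlam.1 l1
      have a2 := hlam.1 l2
      have a3 : |lam l1| * |lam l2| ≤ 1 := mul_le_one₀ a1 (abs_nonneg _) a2
      have a4 : |Hf D M P l1 l2 w1 w2 - Hf D M P (xe L n i) (xe L n j) w1 w2| ≤ κ := by
        have p1 : (0 : ℝ) ≤ (l1 : ℝ) := by
          have : (1 : ℝ) ≤ (l1 : ℝ) := by exact_mod_cast g1.1
          linarith
        have p2 : (0 : ℝ) ≤ (l2 : ℝ) := by
          have : (1 : ℝ) ≤ (l2 : ℝ) := by exact_mod_cast g2.1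
          linarith
        rw [hκ]
        split_ifs with hc
        · have := Hf_lip hD hM hP hRP hR (l1 : ℝ) (l2 : ℝ) (xe L n i) (xe L n j) n w1 w2 hn1 hn2
            (xe_near n i l1 hl1 g1.2) (xe_near n j l2 hl2 g2.2)
          rw [dlc_coe] at this
          exact this
        · push Not at hc
          have q1 : Hf D M P l1 l2 w1 w2 = 0 :=
            Hf_supp (L := L) hP hR (l1 : ℝ) (l2 : ℝ) w1 w2 hn1 hn2 p1 g1.2 p2 g2.2 (by rwa [dlc_coe])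
          have q2 : Hf D M P (xe L n i) (xe L n j) w1 w2 = 0 :=
            Hf_supp (L := L) hP hR _ _ w1 w2 hn1 hn2 (xe_nonneg hL n i) (xe_le L n i)
              (xe_nonneg hL n j) (xe_le L n j) (by rwa [dlc_coe])
          rw [q1, q2]
          simp
      calc |lam l1| * |lam l2| * |Hf D M P l1 l2 w1 w2 - Hf D M P (xe L n i) (xe L n j) w1 w2|
          ≤ 1 * κ := mul_le_mul a3 a4 (abs_nonneg _) zero_le_one
        _ = κ := one_mul _
    · rw [if_neg hex, if_neg hex, sub_zero, abs_zero]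
      split_ifs
      · exact hκ0
      · exact le_rfl
  have hdiff : |FF D M P lam w1 w2 - MPt D M P L lam J n w1 w2| ≤
      ∑ l1 ∈ Ioc (0 : ℤ) ((J * n : ℕ) : ℤ), ∑ l2 ∈ Ioc (0 : ℤ) ((J * n : ℕ) : ℤ),
        if (dl w1 w2 ∣ l2 - t * l1) ∧ l1 ≤ NL ∧ l2 ≤ NL then κ else 0 := by
    rw [e1, e2, ← Finset.sum_sub_distrib, sum_Ioc_split]
    refine (Finset.abs_sum_le_sum_abs _ _).trans (Finset.sum_le_sum fun i hi => ?_)
    rw [← Finset.sum_sub_distrib]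
    refine (Finset.abs_sum_le_sum_abs _ _).trans (Finset.sum_le_sum fun l1 hl1 => ?_)
    rw [← Finset.sum_sub_distrib, sum_Ioc_split]
    refine (Finset.abs_sum_le_sum_abs _ _).trans (Finset.sum_le_sum fun j hj => ?_)
    rw [← Finset.sum_sub_distrib]
    exact (Finset.abs_sum_le_sum_abs _ _).trans (Finset.sum_le_sum fun l2 hl2 => hU i hi l1 hl1 j hj l2 hl2)
  have hNLL : (NL : ℝ) ≤ L := Nat.floor_le hL
  have hinner : ∀ l1 ∈ Ioc (0 : ℤ) ((J * n : ℕ) : ℤ), (∑ l2 ∈ Ioc (0 : ℤ) ((J * n : ℕ) : ℤ),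
        if (dl w1 w2 ∣ l2 - t * l1) ∧ l1 ≤ NL ∧ l2 ≤ NL then κ else 0) ≤
      if l1 ∈ Ioc (0 : ℤ) NL then κ * (L / |(dl w1 w2 : ℝ)| + 1) else 0 := by
    intro l1 hl1
    by_cases h1 : l1 ≤ (NL : ℤ)
    · rw [if_pos (mem_Ioc.2 ⟨(mem_Ioc.1 hl1).1, h1⟩)]
      rw [← Finset.sum_filter, Finset.sum_const, nsmul_eq_mul, mul_comm]
      refine mul_le_mul_of_nonneg_left ?_ hκ0
      have c1 := count_mod (dl w1 w2) (t * l1) hd NL
      refine le_trans (le_trans ?_ c1) ?_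
      · norm_cast
        refine Finset.card_le_card fun l2 hl2 => ?_
        rw [mem_filter, mem_Ioc] at hl2
        rw [mem_filter, mem_Ioc]
        exact ⟨⟨hl2.1.1, hl2.2.2.2⟩, hl2.2.1⟩
      · have := div_le_div_of_nonneg_right hNLL hd'.le
        linarith
    · rw [if_neg (fun h => h1 (mem_Ioc.1 h).2)]
      refine le_of_eq (Finset.sum_eq_zero fun l2 _ => ?_)
      rw [if_neg (fun h => h1 h.2.1)]
  refine hdiff.trans ((Finset.sum_le_sum hinner).trans ?_)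
  rw [← Finset.sum_filter, Finset.sum_const, nsmul_eq_mul]
  have hcard : ((((Ioc (0 : ℤ) ((J * n : ℕ) : ℤ)).filter (fun l1 => l1 ∈ Ioc (0 : ℤ) NL)).card : ℕ) : ℝ) ≤ L := by
    refine le_trans ?_ hNLL
    norm_cast
    refine (Finset.card_le_card (t := Ioc (0 : ℤ) NL) fun l hl => (mem_filter.1 hl).2).trans ?_
    rw [Int.card_Ioc]
    omega
  have hfac : 0 ≤ κ * (L / |(dl w1 w2 : ℝ)| + 1) := by positivity
  refine (mul_le_mul_of_nonneg_right hcard hfac).trans ?_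
  rw [hκ]
  split_ifs
  · refine le_of_eq ?_
    ring
  · simp

end Pool.Agent.N391.GN
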