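import Pool.Agent.N391.GN.TGd

/-! GN/TG, part e: sums over the pairs. -/

set_option autoImplicit false

namespace Pool.Agent.N391.GN

open Finset Pool.Agent.N782.GN

theorem harm (K : ℕ) : ∑ d ∈ (Icc (-(K : ℤ)) K).erase 0, 1 / |(d : ℝ)| =
    2 * ∑ i ∈ range K, ((i : ℝ) + 1)⁻¹ := by
  induction K with
  | zero => simp
  | succ K ih =>
    have h1 : (Icc (-((K + 1 : ℕ) : ℤ)) ((K + 1 : ℕ) : ℤ)).erase 0 =
        insert ((K : ℤ) + 1) (insert (-((K : ℤ) + 1)) ((Icc (-(K : ℤ)) K).erase 0)) := by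
      ext d
      simp only [mem_erase, mem_Icc, mem_insert]
      push_cast
      omega
    rw [h1, Finset.sum_insert, Finset.sum_insert, ih, Finset.sum_range_succ]
    · push_cast
      rw [abs_neg, abs_of_nonneg (by positivity : (0 : ℝ) ≤ (K : ℝ) + 1)]
      ring
    · simp only [mem_erase, mem_Icc]
      omega
    · simp only [mem_insert, mem_erase, mem_Icc]
      omega

theorem harm_le (K : ℕ) (X : ℝ) (hX : 1 ≤ X) (hK : (K : ℝ) ≤ X) :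
    ∑ d ∈ (Icc (-(K : ℤ)) K).erase 0, 1 / |(d : ℝ)| ≤ 2 * (1 + Real.log X) := by
  rw [harm]
  have h1 : ∑ i ∈ range K, ((i : ℝ) + 1)⁻¹ ≤ 1 + Real.log X := by
    rcases Nat.eq_zero_or_pos K with h0 | h0
    · subst h0
      simp only [range_zero, sum_empty]
      have := Real.log_nonneg hX
      linarith
    · have h2 := harmonic_le_one_add_log K
      have h3 : ((harmonic K : ℚ) : ℝ) = ∑ i ∈ range K, ((i : ℝ) + 1)⁻¹ := by
        unfold harmonic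
        push_cast
        rfl
      rw [h3] at h2
      have h4 : Real.log K ≤ Real.log X := Real.log_le_log (by exact_mod_cast h0) hK
      linarith
  linarith

/-- the CHR data for one pair -/
def PD (w1 w2 : ZI) : Prop := ∃ t : ℤ,
  (∀ l1 l2 : ℤ, (∃ v : ZI, (w1 * v).re = l1 ∧ (w2 * v).re = l2) ↔ dl w1 w2 ∣ l2 - t * l1) ∧
  ∀ v : ZI, nz v * (dl w1 w2 : ℝ) ^ 2 =
    ‖(w2 : ℂ) * (((w1 * v).re : ℤ) : ℂ) - (w1 : ℂ) * (((w2 * v).re : ℤ) : ℂ)‖ ^ 2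

theorem PD_of (h : S_CHR) {R : ℝ} {w1 w2 : ZI} (h1 : w1 ∈ cw R) (h2 : w2 ∈ cw R) (hd : dl w1 w2 ≠ 0) :
    PD w1 w2 := by
  obtain ⟨t, -, -, h3, h4⟩ := h w1 w2 (mem_cw h1).2.2.2 (mem_cw h2).2.2.2 hd
  exact ⟨t, h3, h4⟩

theorem part2 {C R D M P L D1 : ℝ} {lam : ℤ → ℝ} {β : ZI → ℝ} (hchr : S_CHR) (hC : 0 ≤ C) (hD1 : 0 < D1)
    (hR : 0 < R) (hM : 0 < M) (hP : 0 < P) (hL : 0 < L) (hD : 1 ≤ D) (hRP : R * P ≤ M)
    (h8 : 8 * (R * L / P) ≤ L) (h81 : 1 ≤ 8 * (R * L / P))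
    (hc : ((cw R).card : ℝ) ≤ C * R ^ 2)
    (h2 : ∀ w ∈ cw R, ∀ D : ℤ, (((cw R).filter (fun w2 => dl w w2 = D)).card : ℝ) ≤ C)
    (hβ : ∀ w, |β w| ≤ 1) (hlam : Lm L lam) (J n : ℕ) (hJn : L ≤ ((J * n : ℕ) : ℝ)) :
    |∑ w1 ∈ cw R, ∑ w2 ∈ cw R, β w1 * β w2 * (om (|(dl w1 w2 : ℝ)| / D1) *
      (FF D M P lam w1 w2 - MPt D M P L lam J n w1 w2))| ≤
      C ^ 2 * R ^ 2 * (24 * D * R * n / (P * D1) * (2 * L ^ 2) *
        (2 * (1 + Real.log (8 * (R * L / P))))) := by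
  set K : ℕ := ⌊8 * (R * L / P)⌋₊ with hK
  set S : Finset ℤ := (Icc (-(K : ℤ)) K).erase 0 with hS
  set q : ℝ := 24 * D * R * n / (P * D1) * (2 * L ^ 2) with hq
  have hq0 : 0 ≤ q := by positivity
  have key : ∀ w1 ∈ cw R, ∀ w2 ∈ cw R,
      |β w1 * β w2 * (om (|(dl w1 w2 : ℝ)| / D1) *
        (FF D M P lam w1 w2 - MPt D M P L lam J n w1 w2))| ≤
        if dl w1 w2 ∈ S then q * (1 / |(dl w1 w2 : ℝ)|) else 0 := by
    intro w1 hw1 w2 hw2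
    have hnn : (0 : ℝ) ≤ if dl w1 w2 ∈ S then q * (1 / |(dl w1 w2 : ℝ)|) else 0 := by
      split_ifs
      · positivity
      · exact le_rfl
    by_cases hs : |(dl w1 w2 : ℝ)| ≤ D1
    · rw [om_eq_zero (by rw [div_le_one hD1]; exact hs)]
      simpa using hnn
    push Not at hs
    have hd0 : 0 < |(dl w1 w2 : ℝ)| := hD1.trans hs
    have hd : dl w1 w2 ≠ 0 := by
      intro h
      rw [h] at hd0
      simp at hd0
    obtain ⟨t, h3, h4⟩ := PD_of hchr hw1 hw2 hd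
    have h5 := FF_diff hD hM hP hRP hR hL.le hlam hw1 hw2 hd t h3 h4 J n hJn
    have a1 : |β w1| * |β w2| ≤ 1 := mul_le_one₀ (hβ _) (abs_nonneg _) (hβ _)
    have a2 : |om (|(dl w1 w2 : ℝ)| / D1)| ≤ 1 := abs_le_one_of (om_nonneg _) (om_le_one _)
    have a3 : |β w1 * β w2 * (om (|(dl w1 w2 : ℝ)| / D1) *
        (FF D M P lam w1 w2 - MPt D M P L lam J n w1 w2))| ≤
        |FF D M P lam w1 w2 - MPt D M P L lam J n w1 w2| := by
      rw [abs_mul, abs_mul, abs_mul]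
      calc |β w1| * |β w2| * (|om (|(dl w1 w2 : ℝ)| / D1)| *
            |FF D M P lam w1 w2 - MPt D M P L lam J n w1 w2|)
          ≤ 1 * (1 * |FF D M P lam w1 w2 - MPt D M P L lam J n w1 w2|) :=
            mul_le_mul a1 (mul_le_mul_of_nonneg_right a2 (abs_nonneg _)) (by positivity) zero_le_one
        _ = _ := by ring
    refine a3.trans (h5.trans ?_)
    split_ifs with c1 c2 c2
    · have b1 : L / |(dl w1 w2 : ℝ)| + 1 ≤ 2 * L / |(dl w1 w2 : ℝ)| := by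
        have : 1 ≤ L / |(dl w1 w2 : ℝ)| := by
          rw [le_div_iff₀ hd0]
          linarith
        have e : 2 * L / |(dl w1 w2 : ℝ)| = L / |(dl w1 w2 : ℝ)| + L / |(dl w1 w2 : ℝ)| := by ring
        linarith
      have b2 : 24 * D * R * n / (P * |(dl w1 w2 : ℝ)|) ≤ 24 * D * R * n / (P * D1) := by
        apply div_le_div_of_nonneg_left (by positivity) (by positivity)
        exact mul_le_mul_of_nonneg_left hs.le hP.le
      calc 24 * D * R * n / (P * |(dl w1 w2 : ℝ)|) * (L * (L / |(dl w1 w2 : ℝ)| + 1))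
          ≤ 24 * D * R * n / (P * D1) * (L * (2 * L / |(dl w1 w2 : ℝ)|)) :=
            mul_le_mul b2 (mul_le_mul_of_nonneg_left b1 hL.le) (by positivity) (by positivity)
        _ = q * (1 / |(dl w1 w2 : ℝ)|) := by
            rw [hq]
            ring
    · exfalso
      apply c2
      rw [hS, mem_erase, mem_Icc]
      refine ⟨hd, ?_⟩
      have b3 : ((|dl w1 w2| : ℤ) : ℝ) ≤ 8 * (R * L / P) := by
        push_cast
        exact c1
      have b4 : |dl w1 w2| ≤ (K : ℤ) := by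
        rw [hK, Int.natCast_floor_eq_floor (by positivity)]
        exact Int.le_floor.2 b3
      exact abs_le.1 b4
    · positivity
    · exact le_rfl
  refine (Finset.abs_sum_le_sum_abs _ _).trans ?_
  have h10 : ∀ w1 ∈ cw R, |∑ w2 ∈ cw R, β w1 * β w2 * (om (|(dl w1 w2 : ℝ)| / D1) *
      (FF D M P lam w1 w2 - MPt D M P L lam J n w1 w2))| ≤
      ∑ w2 ∈ (cw R).filter (fun w2 => dl w1 w2 ∈ S), q * (1 / |(dl w1 w2 : ℝ)|) := by
    intro w1 hw1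
    refine (Finset.abs_sum_le_sum_abs _ _).trans ?_
    rw [Finset.sum_filter]
    exact Finset.sum_le_sum fun w2 hw2 => key w1 hw1 w2 hw2
  refine (Finset.sum_le_sum h10).trans ?_
  refine (pair_count hC hc h2 S (fun d => q * (1 / |(d : ℝ)|)) (fun _ _ => by positivity)).trans ?_
  rw [← Finset.mul_sum]
  refine mul_le_mul_of_nonneg_left (mul_le_mul_of_nonneg_left ?_ hq0) (by positivity)
  exact harm_le K _ h81 (Nat.floor_le (by positivity))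

theorem part3 {R D M P L D1 X : ℝ} {lam : ℤ → ℝ} {β : ZI → ℝ} (J n : ℕ)
    (hX : ∀ i ∈ range J, ∀ j ∈ range J, |∑ w1 ∈ cw R, ∑ w2 ∈ cw R, β w1 * β w2 *
      (|(dl w1 w2 : ℝ)| * Kf D M P D1 (xe L n i) (xe L n j) w1 w2) *
      A2 lam (Ioc ((i * n : ℕ) : ℤ) ((i * n : ℕ) + n)) (Ioc ((j * n : ℕ) : ℤ) ((j * n : ℕ) + n)) w1 w2| ≤ X) :
    |∑ w1 ∈ cw R, ∑ w2 ∈ cw R, β w1 * β w2 * (om (|(dl w1 w2 : ℝ)| / D1) *
      MPt D M P L lam J n w1 w2)| ≤ (J : ℝ) ^ 2 * X := by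
  have hK : ∀ (w1 w2 : ZI) (x y : ℝ), om (|(dl w1 w2 : ℝ)| / D1) * Hf D M P x y w1 w2 =
      |(dl w1 w2 : ℝ)| * Kf D M P D1 x y w1 w2 := by
    intro w1 w2 x y
    unfold Kf
    rw [dlc_coe]
    by_cases h0 : |(dl w1 w2 : ℝ)| = 0
    · rw [h0, zero_div, om_eq_zero (by norm_num)]
      ring
    · field_simp
  have e1 : ∑ w1 ∈ cw R, ∑ w2 ∈ cw R, β w1 * β w2 * (om (|(dl w1 w2 : ℝ)| / D1) *
      MPt D M P L lam J n w1 w2) =
      ∑ i ∈ range J, ∑ j ∈ range J, ∑ w1 ∈ cw R, ∑ w2 ∈ cw R, β w1 * β w2 *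
      (|(dl w1 w2 : ℝ)| * Kf D M P D1 (xe L n i) (xe L n j) w1 w2) *
      A2 lam (Ioc ((i * n : ℕ) : ℤ) ((i * n : ℕ) + n)) (Ioc ((j * n : ℕ) : ℤ) ((j * n : ℕ) + n)) w1 w2 := by
    have h1 : ∀ w1 w2 : ZI, β w1 * β w2 * (om (|(dl w1 w2 : ℝ)| / D1) * MPt D M P L lam J n w1 w2) =
        ∑ i ∈ range J, ∑ j ∈ range J, β w1 * β w2 *
        (|(dl w1 w2 : ℝ)| * Kf D M P D1 (xe L n i) (xe L n j) w1 w2) *
        A2 lam (Ioc ((i * n : ℕ) : ℤ) ((i * n : ℕ) + n)) (Ioc ((j * n : ℕ) : ℤ) ((j * n : ℕ) + n)) w1 w2 := by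
      intro w1 w2
      unfold MPt
      rw [Finset.mul_sum, Finset.mul_sum]
      refine Finset.sum_congr rfl fun i _ => ?_
      rw [Finset.mul_sum, Finset.mul_sum]
      refine Finset.sum_congr rfl fun j _ => ?_
      rw [← hK]
      ring
    simp only [h1]
    have h2 : ∀ w1 ∈ cw R, ∑ w2 ∈ cw R, ∑ i ∈ range J, ∑ j ∈ range J, β w1 * β w2 *
        (|(dl w1 w2 : ℝ)| * Kf D M P D1 (xe L n i) (xe L n j) w1 w2) *
        A2 lam (Ioc ((i * n : ℕ) : ℤ) ((i * n : ℕ) + n)) (Ioc ((j * n : ℕ) : ℤ) ((j * n : ℕ) + n)) w1 w2 =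
        ∑ i ∈ range J, ∑ j ∈ range J, ∑ w2 ∈ cw R, β w1 * β w2 *
        (|(dl w1 w2 : ℝ)| * Kf D M P D1 (xe L n i) (xe L n j) w1 w2) *
        A2 lam (Ioc ((i * n : ℕ) : ℤ) ((i * n : ℕ) + n)) (Ioc ((j * n : ℕ) : ℤ) ((j * n : ℕ) + n)) w1 w2 := by
      intro w1 _
      rw [Finset.sum_comm]
      exact Finset.sum_congr rfl fun i _ => Finset.sum_comm
    rw [Finset.sum_congr rfl h2, Finset.sum_comm]
    exact Finset.sum_congr rfl fun i _ => Finset.sum_comm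
  rw [e1]
  refine (Finset.abs_sum_le_sum_abs _ _).trans ?_
  have h3 : ∀ i ∈ range J, |∑ j ∈ range J, ∑ w1 ∈ cw R, ∑ w2 ∈ cw R, β w1 * β w2 *
      (|(dl w1 w2 : ℝ)| * Kf D M P D1 (xe L n i) (xe L n j) w1 w2) *
      A2 lam (Ioc ((i * n : ℕ) : ℤ) ((i * n : ℕ) + n)) (Ioc ((j * n : ℕ) : ℤ) ((j * n : ℕ) + n)) w1 w2| ≤
      J * X := by
    intro i hi
    refine (Finset.abs_sum_le_sum_abs _ _).trans ?_
    refine (Finset.sum_le_sum (hX i hi)).trans ?_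
    rw [Finset.sum_const, card_range, nsmul_eq_mul]
  refine (Finset.sum_le_sum h3).trans ?_
  rw [Finset.sum_const, card_range, nsmul_eq_mul]
  exact le_of_eq (by ring)

end Pool.Agent.N391.GN
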