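import Pool.Agent.N391.GN.TGe

/-! GN/TG, part f: the three parts together. -/

set_option autoImplicit false

namespace Pool.Agent.N391.GN

open Finset Pool.Agent.N782.GN

/-- the left side of the dispersion inequality -/
noncomputable def TT (M R P D : ℝ) (β : ZI → ℝ) (lam : ℤ → ℝ) : ℝ :=
  ∑ v ∈ bl (9 * P ^ 2), Phi (Real.sqrt (nz v) / P) * (∑ w ∈ (bl (4 * R ^ 2)).filter (fun w => R ^ 2 < nz w),
    β w * lam (w * v).re * psi D (Real.sqrt (nz (w * v)) / M)) ^ 2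

theorem core {C R D M P L D1 X : ℝ} {lam : ℤ → ℝ} {β : ZI → ℝ} (hchr : S_CHR) (hC : 0 ≤ C) (hD1 : 0 < D1)
    (hR : 0 < R) (hM : 0 < M) (hP : 0 < P) (hL : 0 < L) (hD : 1 ≤ D) (hRP : R * P ≤ M)
    (h8 : 8 * (R * L / P) ≤ L) (h81 : 1 ≤ 8 * (R * L / P))
    (hc : ((cw R).card : ℝ) ≤ C * R ^ 2)
    (h2 : ∀ w ∈ cw R, ∀ D : ℤ, (((cw R).filter (fun w2 => dl w w2 = D)).card : ℝ) ≤ C)
    (h3 : ∀ w ∈ cw R, (((bl (9 * P ^ 2)).filter
      (fun v => 1 ≤ (w * v).re ∧ (((w * v).re : ℤ) : ℝ) ≤ L)).card : ℝ) ≤ C * L * P / R)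
    (hβ : ∀ w, |β w| ≤ 1) (hβ1 : ∀ w, ct w ≠ 1 → β w = 0) (hlam : Lm L lam) (J n : ℕ)
    (hJn : L ≤ ((J * n : ℕ) : ℝ))
    (hX : ∀ i ∈ range J, ∀ j ∈ range J, |∑ w1 ∈ cw R, ∑ w2 ∈ cw R, β w1 * β w2 *
      (|(dl w1 w2 : ℝ)| * Kf D M P D1 (xe L n i) (xe L n j) w1 w2) *
      A2 lam (Ioc ((i * n : ℕ) : ℤ) ((i * n : ℕ) + n)) (Ioc ((j * n : ℕ) : ℤ) ((j * n : ℕ) + n)) w1 w2| ≤ X) :
    TT M R P D β lam ≤ C ^ 3 * (4 * D1 + 1) * R * L * P +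
      C ^ 2 * R ^ 2 * (24 * D * R * n / (P * D1) * (2 * L ^ 2) *
        (2 * (1 + Real.log (8 * (R * L / P))))) + (J : ℝ) ^ 2 * X := by
  have e : TT M R P D β lam =
      ∑ w1 ∈ cw R, ∑ w2 ∈ cw R, β w1 * β w2 * ((1 - om (|(dl w1 w2 : ℝ)| / D1)) * FF D M P lam w1 w2) +
      ∑ w1 ∈ cw R, ∑ w2 ∈ cw R, β w1 * β w2 * (om (|(dl w1 w2 : ℝ)| / D1) *
        (FF D M P lam w1 w2 - MPt D M P L lam J n w1 w2)) +
      ∑ w1 ∈ cw R, ∑ w2 ∈ cw R, β w1 * β w2 * (om (|(dl w1 w2 : ℝ)| / D1) *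
        MPt D M P L lam J n w1 w2) := by
    unfold TT
    rw [expand D M P R β lam hβ1, ← Finset.sum_add_distrib, ← Finset.sum_add_distrib]
    refine Finset.sum_congr rfl fun w1 _ => ?_
    rw [← Finset.sum_add_distrib, ← Finset.sum_add_distrib]
    refine Finset.sum_congr rfl fun w2 _ => ?_
    ring
  rw [e]
  have p1 := part1 (D := D) (M := M) hC hD1 hR hP hL.le hc h2 h3 hβ hlam
  have p2 := part2 hchr hC hD1 hR hM hP hL hD hRP h8 h81 hc h2 hβ hlam J n hJn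
  have p3 := part3 (β := β) (lam := lam) J n hX
  exact add_le_add (add_le_add ((le_abs_self _).trans p1) ((le_abs_self _).trans p2))
    ((le_abs_self _).trans p3)

theorem TT_trivial {M R P D : ℝ} {β : ZI → ℝ} {lam : ℤ → ℝ} (hβ : ∀ w, |β w| ≤ 1)
    (hlam : ∀ l, |lam l| ≤ 1) (X Y : ℝ) (hX : 9 * P ^ 2 ≤ X) (hY : 4 * R ^ 2 ≤ Y) :
    TT M R P D β lam ≤ ((bl X).card : ℝ) * ((bl Y).card : ℝ) ^ 2 := by
  have mono : ∀ a b : ℝ, a ≤ b → (bl a) ⊆ (bl b) := by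
    intro a b hab v hv
    rw [mem_bl] at hv ⊢
    exact ⟨hv.1, hv.2.trans hab⟩
  have h1 : ∀ v : ZI, |∑ w ∈ (bl (4 * R ^ 2)).filter (fun w => R ^ 2 < nz w),
      β w * lam (w * v).re * psi D (Real.sqrt (nz (w * v)) / M)| ≤ ((bl Y).card : ℝ) := by
    intro v
    refine (Finset.abs_sum_le_sum_abs _ _).trans ?_
    refine (Finset.sum_le_card_nsmul _ _ 1 fun w _ => ?_).trans ?_
    · rw [abs_mul, abs_mul]
      exact mul_le_one₀ (mul_le_one₀ (hβ _) (abs_nonneg _) (hlam _)) (abs_nonneg _)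
        (abs_le_one_of (psi_nonneg _ _) (psi_le_one _ _))
    · rw [nsmul_eq_mul, mul_one]
      exact_mod_cast (Finset.card_le_card (Finset.filter_subset _ _)).trans
        (Finset.card_le_card (mono _ _ hY))
  unfold TT
  refine (Finset.sum_le_card_nsmul _ _ (((bl Y).card : ℝ) ^ 2) fun v _ => ?_).trans ?_
  · have h2 := h1 v
    have h3 : (∑ w ∈ (bl (4 * R ^ 2)).filter (fun w => R ^ 2 < nz w),
      β w * lam (w * v).re * psi D (Real.sqrt (nz (w * v)) / M)) ^ 2 ≤ ((bl Y).card : ℝ) ^ 2 :=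
      sq_le_sq' (by linarith [neg_le_of_abs_le h2]) (le_of_abs_le h2)
    calc _ ≤ 1 * ((bl Y).card : ℝ) ^ 2 := mul_le_mul (Phi_le_one _) h3 (sq_nonneg _) zero_le_one
      _ = _ := one_mul _
  · rw [nsmul_eq_mul]
    exact mul_le_mul_of_nonneg_right (by exact_mod_cast Finset.card_le_card (mono _ _ hX)) (by positivity)

/-- the choice of the threshold for `M` -/
theorem large (ε : ℝ) (hε : 0 < ε) (K : ℕ) :
    ∃ M0 : ℝ, 3 ≤ M0 ∧ ∀ M : ℝ, M0 ≤ M → 100 ≤ Real.log M ∧ 64 * Real.log M ^ K ≤ M ^ ε := by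
  have h1 : ∀ᶠ M : ℝ in Filter.atTop, 100 ≤ Real.log M :=
    Real.tendsto_log_atTop.eventually_ge_atTop 100
  have h2 : ∀ᶠ M : ℝ in Filter.atTop, ‖Real.log M ^ (K : ℝ)‖ ≤ (1 / 64) * ‖M ^ ε‖ :=
    (isLittleO_log_rpow_rpow_atTop (K : ℝ) hε).bound (by norm_num)
  obtain ⟨M1, hM1⟩ := Filter.eventually_atTop.1 (h1.and h2)
  refine ⟨max 3 M1, le_max_left _ _, fun M hM => ?_⟩
  obtain ⟨h3, h4⟩ := hM1 M ((le_max_right _ _).trans hM)
  refine ⟨h3, ?_⟩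
  have hM0 : 0 < M := by linarith [(le_max_left 3 M1).trans hM]
  rw [Real.rpow_natCast, Real.norm_of_nonneg (by positivity), Real.norm_of_nonneg (by positivity)] at h4
  linarith

end Pool.Agent.N391.GN
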